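import Mathlib
import Pool.Agent.Helper415.DGA4

/-!
A real Banach space whose modulus of smoothness has power type `2`, a countable dictionary of
unit vectors in it, an element `f` and one sequence of residuals which is, for every
`t ∈ (0, 1]` at once, an admissible run of the WDGA(`t`) started at `f`, and along which all
norms are at least `7 / 8`.
-/

set_option autoImplicit false

open Filter Topology

namespace Pool.Agent.Results.MP_ecafc5_an.WDGADiverges

/-- The modulus of smoothness of `X`. -/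
noncomputable def modulus (X : Type) [NormedAddCommGroup X] [NormedSpace ℝ X] (u : ℝ) : ℝ :=
  sSup {v : ℝ | ∃ x y : X, ‖x‖ = 1 ∧ ‖y‖ = 1 ∧ v = (‖x + u • y‖ + ‖x - u • y‖) / 2 - 1}

/-- The modulus of smoothness of `X` has power type `q`. -/
def PowerType (X : Type) [NormedAddCommGroup X] [NormedSpace ℝ X] (q : ℝ) : Prop :=
  ∃ γ : ℝ, 0 < γ ∧ ∀ u : ℝ, 0 < u → modulus X u ≤ γ * u ^ q

/-- `X` is uniformly smooth. -/
def UniformlySmooth (X : Type) [NormedAddCommGroup X] [NormedSpace ℝ X] : Prop :=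
  Tendsto (fun u : ℝ => modulus X u / u) (𝓝[>] 0) (𝓝 0)

section

variable {X : Type} [NormedAddCommGroup X] [NormedSpace ℝ X]

/-- `D` is a dictionary: `‖g‖ ≤ 1` and `-g ∈ D` for `g ∈ D`, and the linear span of `D` is
dense. -/
structure IsDictionary (D : Set X) : Prop where
  norm_le : ∀ g ∈ D, ‖g‖ ≤ 1
  symm : ∀ g ∈ D, -g ∈ D
  dense_span : Dense ((Submodule.span ℝ D : Submodule ℝ X) : Set X)

/-- The quantity `‖F‖_D`, the supremum of `F` over `D`. -/
noncomputable def dictNorm (D : Set X) (F : X →L[ℝ] ℝ) : ℝ := sSup (F '' D)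

/-- `F` is a norming functional of `f`. -/
def IsNorming (F : X →L[ℝ] ℝ) (f : X) : Prop := ‖F‖ = 1 ∧ F f = ‖f‖

/-- One step of the WDGA(`t`), from the residual `f` to the residual `f'`. -/
def Step (t : ℝ) (D : Set X) (f f' : X) : Prop :=
  ∃ (F : X →L[ℝ] ℝ) (φ : X) (a : ℝ), IsNorming F f ∧ φ ∈ D ∧ t * dictNorm D F ≤ F φ ∧
    (∀ b : ℝ, ‖f - a • φ‖ ≤ ‖f - b • φ‖) ∧ f' = f - a • φ

/-- `r` is the sequence of residuals of an admissible run of the WDGA(`t`) started at `f`; the
algorithm stops at a zero residual. -/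
def IsRun (t : ℝ) (D : Set X) (f : X) (r : ℕ → X) : Prop :=
  r 0 = f ∧ ∀ m, (r m = 0 → r (m + 1) = 0) ∧ (r m ≠ 0 → Step t D (r m) (r (m + 1)))

/-- The WDGA(`t`) with dictionary `D` converges for `f`. -/
def ConvergesFor (t : ℝ) (D : Set X) (f : X) : Prop :=
  ∀ r : ℕ → X, IsRun t D f r → Tendsto (fun m => ‖r m‖) atTop (𝓝 0)

end

/-! ### Proof -/

open Pool.Agent.Helper415.DGA

lemma modulus_le (u : ℝ) (hu : 0 < u) : modulus XX u ≤ 10 ^ 12 * u ^ (2:ℝ) := by
  apply Real.sSup_le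
  · rintro v ⟨x, y, hx, hy, rfl⟩
    exact smoothX x y hx hy u hu
  · positivity

lemma modulus_nonneg (X : Type) [NormedAddCommGroup X] [NormedSpace ℝ X] (u : ℝ) :
    0 ≤ modulus X u := by
  apply Real.sSup_nonneg
  rintro v ⟨x, y, hx, hy, rfl⟩
  have h1 : ‖(x + u • y) + (x - u • y)‖ ≤ ‖x + u • y‖ + ‖x - u • y‖ := norm_add_le _ _
  have h2 : (x + u • y) + (x - u • y) = (2:ℝ) • x := by rw [two_smul]; abel
  rw [h2, norm_smul, hx, Real.norm_eq_abs, abs_two] at h1
  linarith

/-- **Main result.** There are a Banach space `X` whose modulus of smoothness has power type `2`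
(so `X` is uniformly smooth), a countable dictionary `D` of unit vectors, an element `f` and a
sequence `r` with `7 / 8 ≤ ‖r m‖` for all `m` which, for every `t ∈ (0, 1]`, is the sequence of
residuals of an admissible run of the WDGA(`t`) started at `f`.  So for every `t ∈ (0, 1]` the
WDGA(`t`) with dictionary `D` does not converge for `f`. -/
theorem result : ∃ (X : Type) (_ : NormedAddCommGroup X) (_ : NormedSpace ℝ X)
    (_ : CompleteSpace X), PowerType X 2 ∧ UniformlySmooth X ∧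
      ∃ D : Set X, IsDictionary D ∧ (∀ g ∈ D, ‖g‖ = 1) ∧ D.Countable ∧
        ∃ (f : X) (r : ℕ → X), (∀ m, 7 / 8 ≤ ‖r m‖) ∧
          ∀ t : ℝ, 0 < t → t ≤ 1 → IsRun t D f r ∧ ¬ ConvergesFor t D f := by
  have hlow : ∀ m, (7:ℝ) / 8 ≤ ‖fX m‖ := fun m => by rw [norm_fX]; exact lam_ge m
  have hnorm : ∀ g ∈ DD, ‖g‖ = 1 := by
    rintro g ⟨j, rfl | rfl⟩
    · exact norm_gX j
    · rw [norm_neg]; exact norm_gX j
  have hmax : ∀ m, ∀ g ∈ DD, FX m g ≤ FX m (gX m) := by
    rintro m g ⟨j, rfl | rfl⟩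
    · exact (le_abs_self _).trans (FX_le j m)
    · rw [map_neg]; exact (neg_le_abs _).trans (FX_le j m)
  have hnn : ∀ m, 0 ≤ FX m (gX m) := fun m => (abs_nonneg _).trans (FX_le m m)
  have hrun : ∀ t : ℝ, 0 < t → t ≤ 1 → IsRun t DD (fX 0) fX := by
    intro t ht0 ht1
    refine ⟨rfl, fun m => ⟨fun h0 => ?_, fun _ => ⟨FX m, gX m, aa m,
      ⟨norm_FX m, by rw [FX_fX, norm_fX]⟩, gX_mem m, ?_, line_opt m, fX_succ m⟩⟩⟩
    · have := hlow m
      rw [h0, norm_zero] at this
      norm_num at this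
    · have h1 : dictNorm DD (FX m) ≤ FX m (gX m) := by
        apply csSup_le
        · exact ⟨_, gX m, gX_mem m, rfl⟩
        · rintro v ⟨g, hg, rfl⟩
          exact hmax m g hg
      have h2 : 0 ≤ dictNorm DD (FX m) := by
        apply (hnn m).trans
        apply le_csSup
        · refine ⟨FX m (gX m), ?_⟩
          rintro v ⟨g, hg, rfl⟩
          exact hmax m g hg
        · exact ⟨gX m, gX_mem m, rfl⟩
      calc t * dictNorm DD (FX m) ≤ 1 * dictNorm DD (FX m) :=
            mul_le_mul_of_nonneg_right ht1 h2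
        _ = dictNorm DD (FX m) := one_mul _
        _ ≤ _ := h1
  refine ⟨XX, inferInstance, inferInstance, inferInstance,
    ⟨10 ^ 12, by norm_num, modulus_le⟩, ?_, DD, ⟨fun g hg => (hnorm g hg).le, ?_, dense_span⟩,
    hnorm, ?_, fX 0, fX, hlow, fun t ht0 ht1 => ⟨hrun t ht0 ht1, ?_⟩⟩
  · -- uniform smoothness
    have h1 : Tendsto (fun u : ℝ => (10:ℝ) ^ 12 * u) (𝓝[>] 0) (𝓝 0) := by
      have : Tendsto (fun u : ℝ => (10:ℝ) ^ 12 * u) (𝓝 0) (𝓝 (10 ^ 12 * 0)) :=
        (continuous_const.mul continuous_id).tendsto 0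
      rw [mul_zero] at this
      exact this.mono_left nhdsWithin_le_nhds
    apply squeeze_zero' _ _ h1
    · filter_upwards [self_mem_nhdsWithin] with u hu
      exact div_nonneg (modulus_nonneg XX u) (le_of_lt hu)
    · filter_upwards [self_mem_nhdsWithin] with u hu
      have hu' : (0:ℝ) < u := hu
      rw [div_le_iff₀ hu']
      have := modulus_le u hu'
      rw [Real.rpow_two] at this
      nlinarith
  · rintro g ⟨j, rfl | rfl⟩
    · exact ⟨j, Or.inr rfl⟩
    · exact ⟨j, Or.inl (neg_neg _)⟩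
  · have : DD = Set.range gX ∪ Set.range (fun j => - gX j) := by
      ext x
      constructor
      · rintro ⟨j, rfl | rfl⟩
        · exact Or.inl ⟨j, rfl⟩
        · exact Or.inr ⟨j, rfl⟩
      · rintro (⟨j, rfl⟩ | ⟨j, rfl⟩)
        · exact ⟨j, Or.inl rfl⟩
        · exact ⟨j, Or.inr rfl⟩
    rw [this]
    exact (Set.countable_range _).union (Set.countable_range _)
  · intro hc
    have h1 := hc fX (hrun t ht0 ht1)
    have h2 : (7:ℝ) / 8 ≤ 0 := ge_of_tendsto' h1 hlow
    norm_num at h2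

end Pool.Agent.Results.MP_ecafc5_an.WDGADiverges
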